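import Pool.Agent.W2helper66.XP.Stm

/-! Piece LAM of project XP (helper66): the weighted grid sum kills polynomials of small degree. -/

set_option autoImplicit false

namespace Pool.Agent.W2helper69.XP

open Finset Pool.Agent.W2helper66.XP

lemma one (p : ℕ) [Fact p.Prime] (d k : ℕ) (hd : d < p) (hk : k < d) :
    ∑ c ∈ range (d + 1), (c : ZMod p) ^ k *
      ∏ e ∈ (range (d + 1)).erase c, ((c : ZMod p) - (e : ZMod p))⁻¹ = 0 := by
  have hinj : Set.InjOn (fun c : ℕ => (c : ZMod p)) (range (d + 1) : Set ℕ) := by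
    intro a ha b hb hab
    simp only [coe_range, Set.mem_Iio] at ha hb
    have h1 := (ZMod.natCast_eq_natCast_iff' a b p).1 hab
    rwa [Nat.mod_eq_of_lt (by omega), Nat.mod_eq_of_lt (by omega)] at h1
  have h := Lagrange.coeff_eq_sum (s := range (d + 1)) (v := fun c : ℕ => (c : ZMod p)) hinj
    (P := (Polynomial.X : Polynomial (ZMod p)) ^ k) (by
      rw [Polynomial.degree_X_pow, card_range]
      exact_mod_cast (by omega : k < d + 1))
  rw [Polynomial.coeff_X_pow, card_range, Nat.add_sub_cancel, if_neg (by omega)] at h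
  rw [h]
  refine sum_congr rfl fun c _ => ?_
  rw [Polynomial.eval_pow, Polynomial.eval_X, div_eq_mul_inv, Finset.prod_inv_distrib]

/-- LAM -/
theorem lam : LAM := by
  intro p _ m d hd h hdeg
  simp_rw [MvPolynomial.eval_eq', Finset.sum_mul]
  rw [Finset.sum_comm]
  refine Finset.sum_eq_zero fun s hs => ?_
  obtain ⟨i0, hi0⟩ : ∃ i, s i < d := by
    by_contra hcon
    push Not at hcon
    have h1 : m * d ≤ ∑ i : Fin m, s i := by
      calc m * d = ∑ _i : Fin m, d := by simp
        _ ≤ ∑ i : Fin m, s i := Finset.sum_le_sum fun i _ => hcon i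
    have h2 := MvPolynomial.le_totalDegree hs
    rw [Finsupp.sum_fintype _ _ (fun _ => rfl)] at h2
    omega
  have h3 : ∀ c : Fin m → ℕ, MvPolynomial.coeff s h * (∏ i, ((c i : ℕ) : ZMod p) ^ s i) *
      wt p m d c = MvPolynomial.coeff s h * ∏ i, (((c i : ℕ) : ZMod p) ^ s i *
        ∏ e ∈ (Finset.range (d + 1)).erase (c i), ((c i : ZMod p) - (e : ZMod p))⁻¹) := by
    intro c
    unfold wt
    rw [Finset.prod_mul_distrib]
    ring
  rw [Finset.sum_congr rfl fun c _ => h3 c, ← Finset.mul_sum,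
    ← Finset.prod_univ_sum (fun _ : Fin m => Finset.range (d + 1))
      (fun (i : Fin m) (c : ℕ) => ((c : ZMod p) ^ s i *
        ∏ e ∈ (Finset.range (d + 1)).erase c, ((c : ZMod p) - (e : ZMod p))⁻¹)),
    Finset.prod_eq_zero (Finset.mem_univ i0) (one p d (s i0) hd hi0), mul_zero]

end Pool.Agent.W2helper69.XP
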